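import Pool.Graph.R_pool_sql_team_seeded_63374d34.N757.RD.Resid
import Pool.Graph.R_pool_sql_team_seeded_63374d34.N757.RD.Point

/-!
# The finite places of the rational numbers
-/

set_option autoImplicit false

namespace Pool.Agent.H584.Szp

open NumberField IsDedekindDomain Pool.Agent.N757.RD

/-- the finite place of `ℚ` at the prime number `p` -/
noncomputable def pl (p : ℕ) (hp : p.Prime) : HeightOneSpectrum (𝓞 ℚ) :=
  Rat.HeightOneSpectrum.primesEquiv.symm ⟨p, hp⟩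

lemma pl_ideal (p : ℕ) (hp : p.Prime) : (pl p hp).asIdeal = Ideal.span {(p : 𝓞 ℚ)} := by
  have h : (pl p hp).asIdeal = (Ideal.span {(p : ℤ)}).map (Rat.IsIntegralClosure.intEquiv (𝓞 ℚ)).symm := rfl
  rw [h, Ideal.map_span, Set.image_singleton]
  simp

lemma pl_norm (p : ℕ) (hp : p.Prime) : Ideal.absNorm (pl p hp).asIdeal = p := by
  rw [pl_ideal, Ideal.absNorm_span_natCast, RingOfIntegers.rank, Module.finrank_self, pow_one]

lemma pl_inj {p q : ℕ} {hp : p.Prime} {hq : q.Prime} (h : pl p hp = pl q hq) : p = q := by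
  rw [← pl_norm p hp, ← pl_norm q hq, h]

lemma pl_mem (p : ℕ) (hp : p.Prime) (m : ℤ) : (m : 𝓞 ℚ) ∈ (pl p hp).asIdeal ↔ (p : ℤ) ∣ m := by
  rw [pl_ideal, Ideal.mem_span_singleton, ← map_dvd_iff Rat.ringOfIntegersEquiv, map_natCast, map_intCast]
  simp

lemma pl_lt (p : ℕ) (hp : p.Prime) (m : ℤ) : FinitePlace.mk (pl p hp) (m : ℚ) < 1 ↔ (p : ℤ) ∣ m := by
  rw [mk_lt_one_iff, ← pl_mem p hp, ← HeightOneSpectrum.valuation_lt_one_iff_mem (K := ℚ)]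
  simp

lemma pl_le (p : ℕ) (hp : p.Prime) (m : ℤ) : FinitePlace.mk (pl p hp) (m : ℚ) ≤ 1 := by
  have := fin_intCast_le (K := ℚ) (pl p hp) m
  exact this

lemma pl_unit (p : ℕ) (hp : p.Prime) {m : ℤ} (h : ¬ (p : ℤ) ∣ m) : FinitePlace.mk (pl p hp) (m : ℚ) = 1 := by
  refine le_antisymm (pl_le p hp m) ?_
  rw [← not_lt, pl_lt]
  exact h

lemma pl_self (p : ℕ) (hp : p.Prime) : FinitePlace.mk (pl p hp) (p : ℚ) ≤ (p : ℝ)⁻¹ := by
  have h0 : (p : ℚ) ≠ 0 := by exact_mod_cast hp.ne_zero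
  have h1 : FinitePlace.mk (pl p hp) (p : ℚ) < 1 := by
    have := (pl_lt p hp p).2 dvd_rfl
    exact_mod_cast this
  have h2 := logN_le (pl p hp) h0 h1
  rw [pl_norm] at h2
  have h3 : 0 < FinitePlace.mk (pl p hp) (p : ℚ) := FinitePlace.pos_iff.2 h0
  rw [map_inv₀] at h2
  have hp0 : (0 : ℝ) < p := by exact_mod_cast hp.pos
  have h4 := (Real.log_le_log_iff hp0 (inv_pos.2 h3)).1 h2
  rw [le_inv_comm₀ h3 hp0]
  exact h4

lemma pl_pow (p : ℕ) (hp : p.Prime) {m : ℤ} {k : ℕ} (h : (p : ℤ) ^ k ∣ m) :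
    (p : ℝ) ^ k * FinitePlace.mk (pl p hp) (m : ℚ) ≤ 1 := by
  obtain ⟨t, rfl⟩ := h
  have hp0 : (0 : ℝ) < p := by exact_mod_cast hp.pos
  push_cast
  rw [map_mul, map_pow]
  have h1 := pl_self p hp
  have h2 := pl_le p hp t
  have h3 : 0 ≤ FinitePlace.mk (pl p hp) (p : ℚ) := (FinitePlace.mk (pl p hp)).val.nonneg _
  have h4 : 0 ≤ FinitePlace.mk (pl p hp) (t : ℚ) := (FinitePlace.mk (pl p hp)).val.nonneg _
  calc (p : ℝ) ^ k * (FinitePlace.mk (pl p hp) (p : ℚ) ^ k * FinitePlace.mk (pl p hp) (t : ℚ))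
      ≤ (p : ℝ) ^ k * (((p : ℝ)⁻¹) ^ k * 1) := by gcongr
    _ = 1 := by rw [inv_pow, mul_one, mul_inv_cancel₀ (pow_pos hp0 k).ne']

end Pool.Agent.H584.Szp
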