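import Pool.Graph.R_pool_sql_team_seeded_63374d34.Results.MP_a793bb_nt.PowerSmoothNearCusp
import Pool.Agent.H584.Szp.Place

/-!
# The special points over the rational numbers in terms of integers
-/

set_option autoImplicit false

namespace Pool.Agent.H584.Szp

open NumberField IsDedekindDomain Pool.Agent.N757.RD
open Pool.Agent.Results.MP_a793bb_nt.PowerSmoothNearCusp (IsPoint IsSpecial radOn_mul height_mul rad_mul)

section triple

variable {A B C : ℕ} (hA : 0 < A) (hB : 0 < B) (hsum : A + B = C) (hco : Nat.Coprime A B)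

include hsum hco in
lemma cAC : Nat.Coprime A C := by
  rw [← hsum]
  simpa using hco

include hsum hco in
lemma cBC : Nat.Coprime B C := by
  rw [← hsum]
  simpa using hco.symm

lemma not_dvd_int {p m n : ℕ} (hp : p.Prime) (h : Nat.Coprime m n) (hm : p ∣ m) : ¬ ((p : ℤ) ∣ (n : ℤ)) := by
  intro h2
  have h3 : p ∣ n := by exact_mod_cast h2
  have h4 := Nat.dvd_gcd hm h3
  rw [h] at h4
  exact hp.one_lt.ne' (Nat.dvd_one.1 h4)

include hA hB hsum in
lemma one_sub_div : (1 : ℚ) - (A : ℚ) / C = (B : ℚ) / C := by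
  have hC : (C : ℚ) ≠ 0 := by
    have : 0 < C := by omega
    exact_mod_cast this.ne'
  have h : (C : ℚ) = A + B := by exact_mod_cast hsum.symm
  field_simp
  rw [h]
  ring

include hA hB hsum hco in
lemma mem_I {p : ℕ} (hp : p.Prime) (h : p ∣ A * B * C) : pl p hp ∈ I ((A : ℚ) / C) := by
  have hC0 : 0 < C := by omega
  have nn : ∀ m : ℕ, 0 < m → 0 < FinitePlace.mk (pl p hp) (m : ℚ) := fun m hm =>
    FinitePlace.pos_iff.2 (by exact_mod_cast hm.ne')
  have lt : ∀ m : ℕ, p ∣ m → FinitePlace.mk (pl p hp) (m : ℚ) < 1 := fun m hm => by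
    have := (pl_lt p hp m).2 (by exact_mod_cast hm)
    exact_mod_cast this
  have un : ∀ m : ℕ, ¬ ((p : ℤ) ∣ (m : ℤ)) → FinitePlace.mk (pl p hp) (m : ℚ) = 1 := fun m hm => by
    have := pl_unit p hp hm
    exact_mod_cast this
  rcases (hp.dvd_mul.1 h) with h1 | h1
  · rcases (hp.dvd_mul.1 h1) with h2 | h2
    · left
      rw [map_div₀, un C (not_dvd_int hp (cAC hsum hco) h2), div_one]
      exact (lt A h2).ne
    · right
      rw [one_sub_div hA hB hsum, map_div₀, un C (not_dvd_int hp (cBC hsum hco) h2), div_one]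
      exact (lt B h2).ne
  · left
    rw [map_div₀, un A (not_dvd_int hp (cAC hsum hco).symm h1)]
    intro h3
    have h4 := lt C h1
    have h5 := nn C hC0
    rw [div_eq_one_iff_eq h5.ne'] at h3
    linarith

include hA hB hsum hco in
lemma sum_le {S : Finset ℕ} (hS : S ⊆ (A * B * C).primeFactors) {P : Set (HeightOneSpectrum (𝓞 ℚ))}
    (hP : ∀ p (hp : p.Prime), p ∈ S → pl p hp ∈ P) :
    ∑ p ∈ S, Real.log (p : ℝ) ≤ W (P ∩ I ((A : ℚ) / C)) := by
  classical
  have hC0 : 0 < C := by omega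
  have hy0 : (A : ℚ) / C ≠ 0 := div_ne_zero (by exact_mod_cast hA.ne') (by exact_mod_cast hC0.ne')
  have hy1 : (A : ℚ) / C ≠ 1 := by
    intro h
    have h1 := one_sub_div hA hB hsum
    rw [h, sub_self] at h1
    have : (B : ℚ) / C ≠ 0 := div_ne_zero (by exact_mod_cast hB.ne') (by exact_mod_cast hC0.ne')
    exact this h1.symm
  have hfin : (P ∩ I ((A : ℚ) / C)).Finite := (finite_I hy0 hy1).subset Set.inter_subset_right
  rw [W_eq hfin]
  have hpr : ∀ p ∈ S, p.Prime := fun p hp => Nat.prime_of_mem_primeFactors (hS hp)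
  set f : {p // p ∈ S} → HeightOneSpectrum (𝓞 ℚ) := fun p => pl p.1 (hpr p.1 p.2) with hf
  have hinj : Function.Injective f := fun p q h => Subtype.ext (pl_inj h)
  calc ∑ p ∈ S, Real.log (p : ℝ) = ∑ p ∈ S.attach, Real.log (p.1 : ℝ) := (Finset.sum_attach S _).symm
    _ = ∑ p ∈ S.attach, Real.log (Ideal.absNorm (f p).asIdeal : ℝ) := by
        refine Finset.sum_congr rfl fun p _ => ?_
        rw [hf]
        simp only
        rw [pl_norm]
    _ = ∑ v ∈ S.attach.image f, Real.log (Ideal.absNorm v.asIdeal : ℝ) := by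
        rw [Finset.sum_image fun p _ q _ h => hinj h]
    _ ≤ _ := by
        refine Finset.sum_le_sum_of_subset_of_nonneg ?_ fun v _ _ => (logN_pos v).le
        intro v hv
        rw [Finset.mem_image] at hv
        obtain ⟨p, -, rfl⟩ := hv
        rw [Set.Finite.mem_toFinset]
        exact ⟨hP p.1 _ p.2, mem_I hA hB hsum hco _ (Nat.dvd_of_mem_primeFactors (hS p.2))⟩

include hA hB hsum hco in
lemma ppow {x : Fin 3 → ℚ} (hx : IsPoint x) (hy : yy x = (A : ℚ) / C) {E : ℝ} {p k : ℕ} (hp : p.Prime)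
    (hr : ∀ i j : Fin 3, FinitePlace.mk (pl p hp) (x i) ≤ E * FinitePlace.mk (pl p hp) (x j))
    (hd : p ^ k ∣ A * B * C) : (p : ℝ) ^ k ≤ E := by
  have hC0 : 0 < C := by omega
  have nn : ∀ m : ℕ, 0 < m → 0 < FinitePlace.mk (pl p hp) (m : ℚ) := fun m hm =>
    FinitePlace.pos_iff.2 (by exact_mod_cast hm.ne')
  have un : ∀ m : ℕ, ¬ ((p : ℤ) ∣ (m : ℤ)) → FinitePlace.mk (pl p hp) (m : ℚ) = 1 := fun m hm => by
    have := pl_unit p hp hm
    exact_mod_cast this
  have pw : ∀ m : ℕ, p ^ k ∣ m → (p : ℝ) ^ k * FinitePlace.mk (pl p hp) (m : ℚ) ≤ 1 := fun m hm => by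
    have h1 : (p : ℤ) ^ k ∣ (m : ℤ) := by exact_mod_cast hm
    have := pl_pow p hp h1
    exact_mod_cast this
  have x0 : x 0 ≠ 0 := fun h => hx.2 (by rw [h]; ring)
  have x2 : x 2 ≠ 0 := fun h => hx.2 (by rw [h]; ring)
  have v0 : 0 < FinitePlace.mk (pl p hp) (x 0) := FinitePlace.pos_iff.2 x0
  have v2 : 0 < FinitePlace.mk (pl p hp) (x 2) := FinitePlace.pos_iff.2 x2
  have hpk : (0 : ℝ) < (p : ℝ) ^ k := pow_pos (by exact_mod_cast hp.pos) k
  have e0 : FinitePlace.mk (pl p hp) (x 0) = FinitePlace.mk (pl p hp) (A : ℚ) /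
      FinitePlace.mk (pl p hp) (C : ℚ) * FinitePlace.mk (pl p hp) (x 2) := by
    have h1 := mk_yy (x := x) (pl p hp)
    rw [hy, map_div₀] at h1
    rw [h1]
    field_simp
  have e1 : FinitePlace.mk (pl p hp) (x 1) = FinitePlace.mk (pl p hp) (B : ℚ) /
      FinitePlace.mk (pl p hp) (C : ℚ) * FinitePlace.mk (pl p hp) (x 2) := by
    have h1 := mk_one_sub_yy hx.1 hx.2 (pl p hp)
    rw [hy, one_sub_div hA hB hsum, map_div₀] at h1
    rw [h1]
    field_simp
  rcases Nat.eq_zero_or_pos k with rfl | hk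
  · have h1 := hr 0 0
    rw [pow_zero]
    by_contra hcon
    push Not at hcon
    nlinarith
  have hpd : ∀ m : ℕ, p ^ k ∣ m → p ∣ m := fun m hm => (dvd_pow_self p hk.ne').trans hm
  have hAB : Nat.Coprime (A * B) C := Nat.Coprime.mul_left (cAC hsum hco) (cBC hsum hco)
  have hpp : IsPrimePow (p ^ k) := (Nat.Prime.isPrimePow hp).pow hk.ne'
  rcases (hAB.isPrimePow_dvd_mul hpp).1 hd with h1 | h1
  · rcases (hco.isPrimePow_dvd_mul hpp).1 h1 with h2 | h2
    · have h3 := un C (not_dvd_int hp (cAC hsum hco) (hpd A h2))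
      rw [h3, div_one] at e0
      have h4 := hr 2 0
      rw [e0] at h4
      have h5 := pw A h2
      have h6 : 1 ≤ E * FinitePlace.mk (pl p hp) (A : ℚ) := by
        by_contra hcon
        push Not at hcon
        nlinarith
      have h7 := nn A hA
      calc (p : ℝ) ^ k ≤ (p : ℝ) ^ k * (E * FinitePlace.mk (pl p hp) (A : ℚ)) := by nlinarith
        _ = E * ((p : ℝ) ^ k * FinitePlace.mk (pl p hp) (A : ℚ)) := by ring
        _ ≤ E * 1 := by
            refine mul_le_mul_of_nonneg_left h5 ?_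
            by_contra hcon
            push Not at hcon
            nlinarith
        _ = E := mul_one E
    · have h3 := un C (not_dvd_int hp (cBC hsum hco) (hpd B h2))
      rw [h3, div_one] at e1
      have h4 := hr 2 1
      rw [e1] at h4
      have h5 := pw B h2
      have h6 : 1 ≤ E * FinitePlace.mk (pl p hp) (B : ℚ) := by
        by_contra hcon
        push Not at hcon
        nlinarith
      have h7 := nn B hB
      calc (p : ℝ) ^ k ≤ (p : ℝ) ^ k * (E * FinitePlace.mk (pl p hp) (B : ℚ)) := by nlinarith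
        _ = E * ((p : ℝ) ^ k * FinitePlace.mk (pl p hp) (B : ℚ)) := by ring
        _ ≤ E * 1 := by
            refine mul_le_mul_of_nonneg_left h5 ?_
            by_contra hcon
            push Not at hcon
            nlinarith
        _ = E := mul_one E
  · have h3 := un A (not_dvd_int hp (cAC hsum hco).symm (hpd C h1))
    have h4 := hr 0 2
    rw [e0, h3] at h4
    have h5 := pw C h1
    have h7 := nn C hC0
    have h6 : 1 ≤ E * FinitePlace.mk (pl p hp) (C : ℚ) := by
      have h8 : 1 / FinitePlace.mk (pl p hp) (C : ℚ) ≤ E := le_of_mul_le_mul_right h4 v2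
      rwa [div_le_iff₀ h7] at h8
    calc (p : ℝ) ^ k ≤ (p : ℝ) ^ k * (E * FinitePlace.mk (pl p hp) (C : ℚ)) := by nlinarith
      _ = E * ((p : ℝ) ^ k * FinitePlace.mk (pl p hp) (C : ℚ)) := by ring
      _ ≤ E * 1 := by
          refine mul_le_mul_of_nonneg_left h5 ?_
          by_contra hcon
          push Not at hcon
          nlinarith
      _ = E := mul_one E

end triple

/-- the height of the quotient of coprime numbers -/
lemma D_div {A C : ℕ} (hA : 0 < A) (hAC : A < C) (hco : Nat.Coprime A C) :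
    D ((A : ℚ) / C) = Real.log C := by
  have hC : C ≠ 0 := by omega
  have h1 : ((A : ℚ) / C).num = A := by
    have := Rat.num_div_eq_of_coprime (a := (A : ℤ)) (b := (C : ℤ)) (by omega) (by simpa using hco)
    rwa [Int.cast_natCast, Int.cast_natCast] at this
  have h2 : ((A : ℚ) / C).den = C := by
    have := Rat.den_div_eq_of_coprime (a := (A : ℤ)) (b := (C : ℤ)) (by omega) (by simpa using hco)
    rw [Int.cast_natCast, Int.cast_natCast] at this
    exact_mod_cast this
  unfold D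
  rw [Rat.logHeight₁_eq_log_max, h1, h2, Int.natAbs_natCast, max_eq_right hAC.le]

/-- **The special points over `ℚ`.** -/
theorem extract {T : Set (HeightOneSpectrum (𝓞 ℚ))} {δ η : ℝ} {M r : ℕ} {x : Fin 3 → ℚ}
    (hr : 0 < r) (hr2 : 2 ∣ r) (hδ : δ < 1) (hx : IsPoint x)
    (hs : IsSpecial T δ η M r x) :
    ∃ a c : ℕ, 0 < a ∧ a < c ∧ Nat.Coprime a c ∧ (a : ℝ) ^ r ≤ δ * (c : ℝ) ^ r ∧
      (c : ℝ) ^ r ≤ Real.exp (η * Pool.Agent.Results.MP_a793bb_nt.PowerSmoothNearCusp.height x) *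
        (a : ℝ) ^ r ∧
      r * Real.log c ≤ Pool.Agent.Results.MP_a793bb_nt.PowerSmoothNearCusp.height x ∧
      Pool.Agent.Results.MP_a793bb_nt.PowerSmoothNearCusp.height x ≤ r * Real.log c + Real.log 2 ∧
      (∀ (p : ℕ) (hp : p.Prime), pl p hp ∈ T → p ∣ a) ∧
      (∀ p k : ℕ, p.Prime → p ^ k ∣ a ^ r * (c ^ r - a ^ r) * c ^ r → (p : ℝ) ^ k ≤
        Real.exp (η * Pool.Agent.Results.MP_a793bb_nt.PowerSmoothNearCusp.height x)) ∧
      ∑ p ∈ (a ^ r * (c ^ r - a ^ r) * c ^ r).primeFactors, Real.log (p : ℝ) ≤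
        Pool.Agent.Results.MP_a793bb_nt.PowerSmoothNearCusp.rad x ∧
      ∑ p ∈ (a ^ r * (c ^ r - a ^ r) * c ^ r).primeFactors.filter (fun p => ¬ p ≡ 1 [MOD M]),
        Real.log (p : ℝ) ≤ η * Pool.Agent.Results.MP_a793bb_nt.PowerSmoothNearCusp.height x := by
  classical
  have hdg : dg ℚ = 1 := by
    unfold dg
    rw [Module.finrank_self, Nat.cast_one]
  have x0 : x 0 ≠ 0 := fun h => hx.2 (by rw [h]; ring)
  have x2 : x 2 ≠ 0 := fun h => hx.2 (by rw [h]; ring)
  obtain ⟨u, hu⟩ := hs.power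
  have hy : yy x = u ^ r := by
    unfold yy
    rw [hu]
    field_simp
  have hu0 : u ≠ 0 := by
    rintro rfl
    apply x0
    rw [hu, zero_pow hr.ne']
    ring
  set a : ℕ := u.num.natAbs with ha
  set c : ℕ := u.den with hc
  have ha0 : 0 < a := Int.natAbs_pos.2 (Rat.num_ne_zero.2 hu0)
  have hc0 : 0 < c := u.den_pos
  have hac : Nat.Coprime a c := u.reduced
  have huabs : |u| = (a : ℚ) / c := by
    rw [Rat.abs_def, Rat.divInt_eq_div, Int.cast_natCast, Int.cast_natCast]
  have hyr : yy x = ((a ^ r : ℕ) : ℚ) / ((c ^ r : ℕ) : ℚ) := by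
    obtain ⟨m, rfl⟩ := hr2
    rw [hy, pow_mul, ← sq_abs, huabs]
    push_cast
    rw [← pow_mul, div_pow]
  have hcr0 : 0 < c ^ r := pow_pos hc0 r
  have har0 : 0 < a ^ r := pow_pos ha0 r
  have hcR : (0 : ℝ) < (c : ℝ) ^ r := by positivity
  have haR : (0 : ℝ) < (a : ℝ) ^ r := by positivity
  -- the infinite place
  have w : InfinitePlace ℚ := Rat.infinitePlace
  have hinf := hs.close_inf Rat.infinitePlace
  have hrat := hs.ratio_inf Rat.infinitePlace 2 0
  have hmult : (Rat.infinitePlace).mult = 1 := by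
    have h1 := mt_le_dg (K := ℚ) (.inl Rat.infinitePlace)
    have h2 := InfinitePlace.mult_pos (w := Rat.infinitePlace)
    rw [hdg] at h1
    have h3 : (Rat.infinitePlace).mult ≤ 1 := by
      have : ((Rat.infinitePlace).mult : ℝ) ≤ 1 := h1
      exact_mod_cast this
    omega
  rw [hmult, pow_one, pow_one, Rat.infinitePlace_apply, Rat.infinitePlace_apply, Module.finrank_self,
    Nat.cast_one, mul_one] at hrat
  rw [Rat.infinitePlace_apply, Rat.infinitePlace_apply] at hinf
  rw [Rat.cast_abs, Rat.cast_abs] at hinf hrat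
  have hx0 : |((x 0 : ℚ) : ℝ)| = (a : ℝ) ^ r / (c : ℝ) ^ r * |((x 2 : ℚ) : ℝ)| := by
    have h1 : (x 0 : ℚ) = -(yy x * x 2) := by
      unfold yy
      field_simp
    rw [h1, hyr]
    push_cast
    rw [abs_neg, abs_mul, abs_div, abs_of_pos haR, abs_of_pos hcR]
  have hx2 : 0 < |((x 2 : ℚ) : ℝ)| := abs_pos.2 (by exact_mod_cast x2)
  have hle : (a : ℝ) ^ r ≤ δ * (c : ℝ) ^ r := by
    rw [hx0] at hinf
    have := le_of_mul_le_mul_right hinf hx2
    rwa [div_le_iff₀ hcR] at this
  have hlt : a < c := by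
    by_contra hcon
    push Not at hcon
    have h1 : (c : ℝ) ^ r ≤ (a : ℝ) ^ r := by
      have : (c : ℝ) ≤ a := by exact_mod_cast hcon
      gcongr
    nlinarith
  have hltr : a ^ r < c ^ r := Nat.pow_lt_pow_left hlt hr.ne'
  have hcor : Nat.Coprime (a ^ r) (c ^ r) := Nat.Coprime.pow r r hac
  have hge : (c : ℝ) ^ r ≤ Real.exp (η * Pool.Agent.Results.MP_a793bb_nt.PowerSmoothNearCusp.height x) *
      (a : ℝ) ^ r := by
    rw [hx0, ← mul_assoc] at hrat
    have h1 : 1 ≤ Real.exp (η * Pool.Agent.Results.MP_a793bb_nt.PowerSmoothNearCusp.height x) *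
        ((a : ℝ) ^ r / (c : ℝ) ^ r) := by
      by_contra hcon
      push Not at hcon
      nlinarith
    rw [← mul_div_assoc, le_div_iff₀ hcR, one_mul] at h1
    exact h1
  set B : ℕ := c ^ r - a ^ r with hB
  have hB0 : 0 < B := by omega
  have hsum : a ^ r + B = c ^ r := by omega
  have hcoB : Nat.Coprime (a ^ r) B := by
    rw [← hsum] at hcor
    simpa using hcor
  have hH := H3_bounds hx.1 hx.2
  rw [← height_mul, hdg, one_mul, mul_one, hyr, D_div har0 hltr hcor] at hH
  have hlogr : Real.log ((c ^ r : ℕ) : ℝ) = r * Real.log c := by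
    push_cast
    rw [Real.log_pow]
  rw [hlogr] at hH
  refine ⟨a, c, ha0, hlt, hac, hle, hge, hH.1, hH.2, ?_, ?_, ?_, ?_⟩
  · intro p hp hT
    have h1 := hs.close_fin _ hT
    have v2 : 0 < FinitePlace.mk (pl p hp) (x 2) := FinitePlace.pos_iff.2 x2
    have h2 := mk_yy (x := x) (pl p hp)
    rw [hyr, map_div₀] at h2
    by_contra hcon
    have hcon' : ¬ (p : ℤ) ∣ ((a ^ r : ℕ) : ℤ) := fun h3 => hcon (by
      have h4 : p ∣ a ^ r := by exact_mod_cast h3
      exact hp.dvd_of_dvd_pow h4)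
    have h3 := pl_unit p hp hcon'
    have h4 := pl_le p hp ((c ^ r : ℕ) : ℤ)
    rw [Int.cast_natCast] at h3 h4
    rw [h3] at h2
    have h5 : 0 < FinitePlace.mk (pl p hp) ((c ^ r : ℕ) : ℚ) :=
      FinitePlace.pos_iff.2 (by exact_mod_cast hcr0.ne')
    have h6 : FinitePlace.mk (pl p hp) (x 0) / FinitePlace.mk (pl p hp) (x 2) ≤ δ := by
      rwa [div_le_iff₀ v2]
    rw [← h2] at h6
    have h7 : (1 : ℝ) ≤ 1 / FinitePlace.mk (pl p hp) ((c ^ r : ℕ) : ℚ) := by
      rwa [le_div_iff₀ h5, one_mul]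
    linarith
  · intro p k hp hd
    refine ppow har0 hB0 hsum hcoB hx hyr hp (fun i j => ?_) hd
    have h1 := hs.ratio_fin (pl p hp) i j
    rwa [Module.finrank_self, Nat.cast_one, mul_one] at h1
  · have h1 := sum_le har0 hB0 hsum hcoB (S := (a ^ r * B * c ^ r).primeFactors) (Finset.Subset.refl _)
      (P := Set.univ) (fun p hp _ => Set.mem_univ _)
    rw [Set.univ_inter] at h1
    have h2 := rad_mul hx
    rw [hdg, one_mul, hyr] at h2
    rw [h2]
    exact h1
  · have h1 := sum_le har0 hB0 hsum hcoB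
      (S := (a ^ r * B * c ^ r).primeFactors.filter (fun p => ¬ p ≡ 1 [MOD M])) (Finset.filter_subset _ _)
      (P := {v | ¬ Ideal.absNorm v.asIdeal ≡ 1 [MOD M]}) (fun p hp hpS => by
        have h2 := (Finset.mem_filter.1 hpS).2
        rw [Set.mem_ofPred_eq, pl_norm]
        exact h2)
    have h2 := radOn_mul (A := {v : HeightOneSpectrum (𝓞 ℚ) | ¬ Ideal.absNorm v.asIdeal ≡ 1 [MOD M]}) hx
    rw [hdg, one_mul, hyr] at h2
    rw [← h2] at h1
    exact h1.trans hs.norms

end Pool.Agent.H584.Szp
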